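import Pool.Agent.Q285.EQ.Basic

/-!
# Stark's conjecture over ATR fields and exponentials of smoothed sums of Frobenius elements

`k` an ATR field, `H/k` the ray class field, `A` the ray class group, `ζ b` the partial zeta functions. The
derivatives `ζ'(b, 0)` are limits, with error `O(1/T)`, of explicit absolutely convergent expressions in the
classes of the primes, and Stark's conjecture for `H/k` (all three conditions) holds if and only if units of `H`
that satisfy the second and the third condition come arbitrarily near to these expressions along one sequence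
`T_i → ∞`.
-/

set_option autoImplicit false

namespace Pool.Agent.Results.MP_29cb78_nt.UnitsNearFrobeniusSums

open Filter Topology Asymptotics NumberField IsDedekindDomain Polynomial Pool.Agent.Q45.ML

section

variable {k : Type} [Field k] [NumberField k] {S : Finset (HeightOneSpectrum (𝓞 k))}
  {A : Type} [AddCommGroup A]

/-- the finite places of `k` outside `S` (`S`: the places dividing the conductor) -/
abbrev Pl (k : Type) [Field k] [NumberField k] (S : Finset (HeightOneSpectrum (𝓞 k))) : Type :=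
  {v : HeightOneSpectrum (𝓞 k) // v ∉ S}

/-- the number of elements of the residue field -/
noncomputable def norm (v : Pl k S) : ℝ := Ideal.absNorm v.1.asIdeal

/-- the weight `(1/n) e^{iγ n log Nv/T} / Γ(1 + n log Nv/T)` of the pair `(v, n)`, `n = x.2 + 1` -/
noncomputable def weight (γ T : ℝ) (x : Pl k S × ℕ) : ℂ :=
  1 / (x.2 + 1) * (Complex.exp ((γ * ((x.2 + 1) * Real.log (norm x.1) / T) : ℝ) * Complex.I) /
    (Real.Gamma (1 + (x.2 + 1) * Real.log (norm x.1) / T) : ℂ))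

/-- the sum of the weights of the pairs `(v, n)` with `n φ v = a` -/
noncomputable def coef (φ : Pl k S → A) (γ T : ℝ) (a : A) : ℂ :=
  ∑' x : {x : Pl k S × ℕ // (x.2 + 1) • φ x.1 = a}, weight γ T (x : Pl k S × ℕ)

/-- the constant `Λ(γ) = ∫_0^∞ (e^{-t} - e^{iγt}/Γ(1+t)) dt/t` -/
noncomputable def Lam (γ : ℝ) : ℂ := Pool.Agent.W187.UR.Lam γ

/-- the coefficient at `b` of `T e^{-Λ} exp(∑_a coef a [a])` in `ℂ[A]`, by Fourier inversion -/
noncomputable def approx [Fintype A] (φ : Pl k S → A) (γ T : ℝ) (b : A) : ℂ :=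
  1 / Fintype.card A * ∑ ψ : AddChar A ℂ,
    T * Complex.exp (-Lam γ) * Complex.exp (∑ a, coef φ γ T a * ψ a) * ψ (-b)

theorem weight_eq (γ T : ℝ) (x : Pl k S × ℕ) :
    weight γ T x = Pool.Agent.Q285.EQ.ker (fun v : Pl k S => norm v) 0 γ T x := by
  unfold weight Pool.Agent.Q285.EQ.ker
  simp

theorem coef_eq (φ : Pl k S → A) (γ T : ℝ) (a : A) :
    coef φ γ T a = Pool.Agent.Q285.EQ.coef (fun v : Pl k S => norm v) φ 0 γ T a := by
  unfold coef Pool.Agent.Q285.EQ.coef
  simp only [weight_eq]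

theorem two_le (v : Pl k S) : 2 ≤ norm v := two_le_nrm v.1

theorem summ {σ : ℝ} (hσ : 1 < σ) : Summable fun v : Pl k S => norm v ^ (-σ) :=
  (nrm_summable hσ).subtype _

theorem quot_tendsto {f : ℂ → ℂ} (hf : AnalyticAt ℂ f 0) (h0 : f 0 = 0) :
    Tendsto (fun s : ℂ => f s / s) (𝓝[≠] 0) (𝓝 (deriv f 0)) := by
  have h := hf.differentiableAt.hasDerivAt.tendsto_slope_zero
  refine h.congr fun t => ?_
  rw [zero_add, h0, sub_zero, smul_eq_mul]
  field_simp

theorem rate [Fintype A] (φ : Pl k S → A) {ζ : A → ℂ → ℂ}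
    (hmer : ∀ b, ∀ x : ℝ, 0 ≤ x → x ≤ 1 → MeromorphicAt (ζ b) (x : ℂ))
    (hζ : ∀ ψ : AddChar A ℂ, ∀ s : ℂ, 1 < s.re →
      HasProd (fun v : Pl k S => (1 - ψ (φ v) * (norm v : ℂ) ^ (-s))⁻¹) (∑ b, ψ b * ζ b s))
    (h0 : ∀ b, AnalyticAt ℂ (ζ b) 0) (hz : ∀ b, ζ b 0 = 0) {γ : ℝ} (hγ : Real.pi / 2 < γ) :
    (fun T : ℝ => approx φ γ T - fun b => deriv (ζ b) 0) =O[atTop] (fun T : ℝ => 1 / T) := by
  classical
  have hψ : ∀ ψ : AddChar A ℂ, (fun T : ℝ => (T : ℂ) * Complex.exp (-Lam γ) *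
      Complex.exp (∑ a, coef φ γ T a * ψ a) - ∑ b, ψ b * deriv (ζ b) 0) =O[atTop]
        (fun T : ℝ => 1 / T) := by
    intro ψ
    have E := Pool.Agent.Q285.EQ.eul_char (q := fun v : Pl k S => norm v) φ two_le
      (fun σ hσ => summ hσ) ψ
    have hmerψ : ∀ x : ℝ, 0 ≤ x → x ≤ 1 → MeromorphicAt (fun s => ∑ b, ψ b * ζ b s) (x : ℂ) := by
      intro x hx hx1
      refine MeromorphicAt.fun_sum fun b _ => ?_
      exact (MeromorphicAt.const _ _).mul (hmer b x hx hx1)
    obtain ⟨m, l, h1, h2, h3⟩ := E.lawC (F := fun s => ∑ b, ψ b * ζ b s) (s₀ := 0) (by norm_num)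
      (fun x hx hx1 => hmerψ x hx (by linarith))
      (fun s hs => by simpa using hζ ψ s (by linarith)) hγ
    have hc : Tendsto (fun s : ℂ => (∑ b, ψ b * ζ b s) * (s - (0 : ℝ)) ^ (-1 : ℤ))
        (𝓝[≠] ((0 : ℝ) : ℂ)) (𝓝 (∑ b, ψ b * deriv (ζ b) 0)) := by
      have h5 : Tendsto (fun s : ℂ => ∑ b, ψ b * (ζ b s / s)) (𝓝[≠] 0)
          (𝓝 (∑ b, ψ b * deriv (ζ b) 0)) :=
        tendsto_finsetSum _ fun b _ => (quot_tendsto (h0 b) (hz b)).const_mul _
      rw [Complex.ofReal_zero]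
      refine h5.congr fun s => ?_
      rw [sub_zero, zpow_neg_one, Finset.sum_mul]
      refine Finset.sum_congr rfl fun b _ => ?_
      ring
    have h4 := Pool.Agent.Q285.EQ.taylor_rate (r := 1) (hmerψ 0 le_rfl zero_le_one) h1 h2 h3 hc
    have h5 := h4.const_mul_left (Complex.exp (-Lam γ))
    refine h5.congr' ?_ EventuallyEq.rfl
    filter_upwards [eventually_gt_atTop 0] with T hT
    have h6 : ∑ a, coef φ γ T a * ψ a = smooth (fun v : Pl k S => norm v)
        (fun v (_ : Fin 1) => ψ (φ v)) 0 γ T := by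
      rw [← Pool.Agent.Q285.EQ.sum_coef φ two_le (fun σ hσ => summ hσ) 0 γ hT ψ]
      simp only [coef_eq]
    rw [h6]
    have h7 : Complex.exp (-Lam γ) * Complex.exp (Lam γ) = 1 := by
      rw [← Complex.exp_add, neg_add_cancel, Complex.exp_zero]
    unfold Lam at h7 ⊢
    rw [Int.cast_one, one_mul, zpow_one]
    linear_combination (-∑ b, ψ b * deriv (ζ b) 0) * h7
  have h0 : (Fintype.card A : ℂ) ≠ 0 := by exact_mod_cast Fintype.card_ne_zero
  have hinv : ∀ b : A, deriv (ζ b) 0 = 1 / Fintype.card A * ∑ ψ : AddChar A ℂ,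
      (∑ a, ψ a * deriv (ζ a) 0) * ψ (-b) := by
    intro b
    have h1 : ∀ a : A, ∑ χ : AddChar A ℂ, χ a * χ (-b) = if a = b then (Fintype.card A : ℂ) else 0 := by
      intro a
      have h2 : ∀ χ : AddChar A ℂ, χ a * χ (-b) = χ (a - b) := fun χ => by
        rw [sub_eq_add_neg, AddChar.map_add_eq_mul]
      simp only [h2]
      rw [AddChar.sum_apply_eq_ite]
      simp only [sub_eq_zero]
    have h2 : ∑ ψ : AddChar A ℂ, (∑ a, ψ a * deriv (ζ a) 0) * ψ (-b) =
        ∑ a, deriv (ζ a) 0 * ∑ ψ : AddChar A ℂ, ψ a * ψ (-b) := by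
      simp only [Finset.mul_sum, Finset.sum_mul]
      rw [Finset.sum_comm]
      refine Finset.sum_congr rfl fun a _ => Finset.sum_congr rfl fun ψ _ => ?_
      ring
    rw [h2]
    simp only [h1, mul_ite, mul_zero, Finset.sum_ite_eq', Finset.mem_univ, if_true]
    field_simp
  refine isBigO_pi.2 fun b => ?_
  have h1 : (fun T : ℝ => (1 / Fintype.card A : ℂ) * ∑ ψ : AddChar A ℂ,
      (((T : ℂ) * Complex.exp (-Lam γ) * Complex.exp (∑ a, coef φ γ T a * ψ a) -
        ∑ a, ψ a * deriv (ζ a) 0) * ψ (-b))) =O[atTop] (fun T : ℝ => 1 / T) := by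
    refine IsBigO.const_mul_left (IsBigO.fun_sum fun ψ _ => ?_) _
    have := (hψ ψ).const_mul_left (ψ (-b))
    refine this.congr (fun T => ?_) fun _ => rfl
    ring
  refine h1.congr (fun T => ?_) fun _ => rfl
  show _ = approx φ γ T b - deriv (ζ b) 0
  rw [hinv b]
  unfold approx
  simp only [sub_mul, Finset.sum_sub_distrib, mul_sub]

end

section

variable {k H A : Type} [Field k] [NumberField k] [Field H] [NumberField H] [Algebra k H]
  [AddCommGroup A]

/-- `log |u^{σ_b}|²`; `art : A → Gal(H/k)` is the Artin map, `σ` the fixed embedding -/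
noncomputable def logAbs (σ : H →+* ℂ) (art : A ≃+ Additive (H ≃ₐ[k] H)) (u : (𝓞 H)ˣ) (b : A) : ℝ :=
  Real.log (‖σ ((art b).toMul (u : H))‖ ^ 2)

/-- condition 2: every embedding above a real embedding of `k` maps `u` to the unit circle -/
def UnitCircle (k : Type) {H : Type} [Field k] [NumberField k] [Field H] [NumberField H] [Algebra k H]
    (u : (𝓞 H)ˣ) : Prop :=
  ∀ τ : H →+* ℂ, (∀ x : k, (τ (algebraMap k H x)).im = 0) → ‖τ (u : H)‖ = 1

/-- condition 3: `H(u^{1/e})` is an abelian extension of `k` -/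
def AbelianRoot (k : Type) {H : Type} [Field k] [NumberField k] [Field H] [NumberField H] [Algebra k H]
    (e : ℕ) (u : (𝓞 H)ˣ) : Prop :=
  IsAbelianGalois k (X ^ e - C (u : H)).SplittingField

/-- the vectors of the units with the conditions 2 and 3 -/
def vectors (σ : H →+* ℂ) (art : A ≃+ Additive (H ≃ₐ[k] H)) (e : ℕ) : Set (A → ℂ) :=
  {x | ∃ u : (𝓞 H)ˣ, UnitCircle k u ∧ AbelianRoot k e u ∧ x = fun b => (logAbs σ art u b : ℂ)}

theorem closed_of_finite_balls {E : Type} [NormedAddCommGroup E] {M : Set E}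
    (h : ∀ R : ℝ, (M ∩ Metric.closedBall 0 R).Finite) : IsClosed M := by
  refine isClosed_of_closure_subset fun x hx => ?_
  by_contra hxM
  have hxA : x ∈ (M ∩ Metric.closedBall 0 (‖x‖ + 1))ᶜ := fun h' => hxM h'.1
  obtain ⟨ε, hε, hball⟩ := Metric.isOpen_iff.1 (h (‖x‖ + 1)).isClosed.isOpen_compl x hxA
  obtain ⟨y, hy, hd⟩ := Metric.mem_closure_iff.1 hx (min ε 1) (lt_min hε one_pos)
  refine hball (a := y) ?_ ⟨hy, ?_⟩
  · rw [Metric.mem_ball, dist_comm]
    exact hd.trans_le (min_le_left _ _)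
  · rw [Metric.mem_closedBall, dist_zero_right]
    have h1 : dist x y < 1 := hd.trans_le (min_le_right _ _)
    have h2 : ‖y‖ ≤ ‖x‖ + ‖y - x‖ := by
      have := norm_add_le x (y - x)
      simpa using this
    rw [dist_comm, dist_eq_norm] at h1
    linarith

theorem closed_vectors [Fintype A] [IsGalois k H] (σ : H →+* ℂ) (art : A ≃+ Additive (H ≃ₐ[k] H))
    (e : ℕ) (hATR : ∀ τ : k →+* ℂ, (∀ x, (τ x).im = 0) ∨ τ = σ.comp (algebraMap k H) ∨
      τ = (starRingEnd ℂ).comp (σ.comp (algebraMap k H))) :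
    IsClosed (vectors σ art e) := by
  refine closed_of_finite_balls fun R => ?_
  -- the units in question have bounded conjugates
  have hfin := NumberField.Embeddings.finite_of_norm_le H ℂ (max 1 (Real.exp (R / 2)))
  refine (hfin.image fun (x : H) (b : A) =>
    ((Real.log (‖σ ((art b).toMul x)‖ ^ 2) : ℝ) : ℂ)).subset ?_
  rintro _ ⟨⟨u, hu2, _, rfl⟩, hR⟩
  refine ⟨(u : H), ⟨RingOfIntegers.isIntegral_coe _, fun τ => ?_⟩, rfl⟩
  have hb : ∀ g : H ≃ₐ[k] H, ‖σ (g (u : H))‖ ≤ Real.exp (R / 2) := by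
    intro g
    have h1 := (norm_le_pi_norm (fun b => (logAbs σ art u b : ℂ)) (art.symm (Additive.ofMul g))).trans
      (mem_closedBall_zero_iff.1 hR)
    simp only [Complex.norm_real, Real.norm_eq_abs] at h1
    unfold logAbs at h1
    rw [AddEquiv.apply_symm_apply] at h1
    simp only [toMul_ofMul] at h1
    have hne : σ (g (u : H)) ≠ 0 := by
      rw [Ne, map_eq_zero, map_eq_zero]
      exact NumberField.Units.coe_ne_zero u
    have hpos : 0 < ‖σ (g (u : H))‖ := norm_pos_iff.2 hne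
    rw [Real.log_pow] at h1
    have h2 := (le_abs_self _).trans h1
    rw [← Real.log_le_iff_le_exp hpos]
    push_cast at h2
    linarith
  rcases hATR (τ.comp (algebraMap k H)) with h | h | h
  · exact (hu2 τ h).le.trans (le_max_left _ _)
  · obtain ⟨g, hg⟩ := ComplexEmbedding.exists_comp_symm_eq_of_comp_eq (k := k) σ τ h.symm
    rw [← hg]
    exact (hb g.symm).trans (le_max_right _ _)
  · have h' : σ.comp (algebraMap k H) = ((starRingEnd ℂ).comp τ).comp (algebraMap k H) := by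
      rw [RingHom.comp_assoc, h, ← RingHom.comp_assoc]
      ext x
      simp
    obtain ⟨g, hg⟩ := ComplexEmbedding.exists_comp_symm_eq_of_comp_eq (k := k) σ _ h'
    have h2 : ‖τ (u : H)‖ = ‖σ (g.symm (u : H))‖ := by
      have h3 : ((starRingEnd ℂ).comp τ) (u : H) = σ (g.symm (u : H)) := by
        rw [← hg]
        rfl
      rw [← h3]
      simp
    rw [h2]
    exact (hb g.symm).trans (le_max_right _ _)

end

theorem result {k H : Type} [Field k] [NumberField k] [Field H] [NumberField H] [Algebra k H]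
    [IsGalois k H] {A : Type} [AddCommGroup A] [Fintype A]
    -- the embedding `σ`, above the complex place of the ATR field `k`
    (σ : H →+* ℂ) (_hC : ∃ x : k, (σ (algebraMap k H x)).im ≠ 0)
    (hATR : ∀ τ : k →+* ℂ, (∀ x, (τ x).im = 0) ∨ τ = σ.comp (algebraMap k H) ∨
      τ = (starRingEnd ℂ).comp (σ.comp (algebraMap k H)))
    -- the Artin map, the classes of the primes, the partial zeta functions
    (art : A ≃+ Additive (H ≃ₐ[k] H))
    (S : Finset (HeightOneSpectrum (𝓞 k))) (φ : Pl k S → A) (ζ : A → ℂ → ℂ)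
    (hmer : ∀ b, ∀ x : ℝ, 0 ≤ x → x ≤ 1 → MeromorphicAt (ζ b) (x : ℂ))
    (hζ : ∀ ψ : AddChar A ℂ, ∀ s : ℂ, 1 < s.re →
      HasProd (fun v : Pl k S => (1 - ψ (φ v) * (norm v : ℂ) ^ (-s))⁻¹) (∑ b, ψ b * ζ b s))
    (h0 : ∀ b, AnalyticAt ℂ (ζ b) 0) (hz : ∀ b, ζ b 0 = 0)
    (e : ℕ) (he : 0 < e) {γ : ℝ} (hγ : Real.pi / 2 < γ) :
    (∀ T : ℝ, 0 < T → Summable fun x : Pl k S × ℕ => ‖weight γ T x‖) ∧
    (fun T : ℝ => approx φ γ T - fun b => deriv (ζ b) 0) =O[atTop] (fun T : ℝ => 1 / T) ∧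
    List.TFAE [
      -- Stark's conjecture
      ∃ u : (𝓞 H)ˣ, (∀ b, deriv (ζ b) 0 = ((-(1 / e) * logAbs σ art u b : ℝ) : ℂ)) ∧
        UnitCircle k u ∧ AbelianRoot k e u,
      ∀ ε : ℝ, 0 < ε → ∀ᶠ T : ℝ in atTop, ∃ u : (𝓞 H)ˣ, UnitCircle k u ∧ AbelianRoot k e u ∧
        ∀ b, ‖approx φ γ T b + 1 / e * logAbs σ art u b‖ ≤ ε,
      ∃ t : ℕ → ℝ, Tendsto t atTop atTop ∧ ∀ ε : ℝ, 0 < ε → ∃ᶠ i in atTop, ∃ u : (𝓞 H)ˣ,
        UnitCircle k u ∧ AbelianRoot k e u ∧
          ∀ b, ‖approx φ γ (t i) b + 1 / e * logAbs σ art u b‖ ≤ ε] := by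
  have hrate := rate φ hmer hζ h0 hz hγ
  have hlim : Tendsto (fun T : ℝ => approx φ γ T) atTop (𝓝 fun b => deriv (ζ b) 0) := by
    have h1 : Tendsto (fun T : ℝ => approx φ γ T - fun b => deriv (ζ b) 0) atTop (𝓝 0) :=
      hrate.trans_tendsto (tendsto_const_nhds.div_atTop tendsto_id)
    simpa using h1.add_const (fun b => deriv (ζ b) 0)
  have hec : (e : ℂ) ≠ 0 := by exact_mod_cast he.ne'
  refine ⟨fun T hT => ?_, hrate, ?_⟩
  · simp only [weight_eq]
    exact Pool.Agent.Q285.EQ.ker_summable φ two_le (fun σ hσ => summ hσ) 0 γ hT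
  tfae_have 1 → 2 := by
    rintro ⟨u, hu1, hu2, hu3⟩ ε hε
    have h1 := Metric.tendsto_nhds.1 hlim ε hε
    filter_upwards [h1] with T hT
    refine ⟨u, hu2, hu3, fun b => ?_⟩
    have h2 := (dist_pi_lt_iff hε).1 hT b
    rw [dist_eq_norm, hu1 b] at h2
    refine le_trans (le_of_eq ?_) h2.le
    congr 1
    push_cast
    ring
  tfae_have 2 → 3 := by
    intro h
    exact ⟨fun n => n, tendsto_natCast_atTop_atTop, fun ε hε =>
      (tendsto_natCast_atTop_atTop.eventually (h ε hε)).frequently⟩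
  tfae_have 3 → 1 := by
    rintro ⟨t, ht, h⟩
    have hmem : (fun b => -(e : ℂ) * deriv (ζ b) 0) ∈ vectors σ art e := by
      rw [← (closed_vectors σ art e hATR).closure_eq]
      refine Metric.mem_closure_iff.2 fun ε hε => ?_
      have he' : (0 : ℝ) < e := by exact_mod_cast he
      have h1 := (hlim.comp ht).eventually (Metric.ball_mem_nhds _ (ε := ε / (2 * e) / 2) (by positivity))
      obtain ⟨i, ⟨u, hu2, hu3, hu⟩, hi⟩ := ((h (ε / (2 * e) / 2) (by positivity)).and_eventually h1).exists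
      refine ⟨fun b => (logAbs σ art u b : ℂ), ⟨u, hu2, hu3, rfl⟩, ?_⟩
      refine (dist_pi_lt_iff hε).2 fun b => ?_
      have h2 := (dist_pi_lt_iff (by positivity)).1 (Metric.mem_ball.1 hi) b
      simp only [Function.comp] at h2
      rw [dist_comm, dist_eq_norm] at h2
      have h3 := hu b
      rw [dist_eq_norm]
      have h4 : -(e : ℂ) * deriv (ζ b) 0 - (logAbs σ art u b : ℂ) =
          -(e : ℂ) * ((deriv (ζ b) 0 - approx φ γ (t i) b) +
            (approx φ γ (t i) b + 1 / e * logAbs σ art u b)) := by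
        field_simp
        ring
      rw [h4, norm_mul, norm_neg, Complex.norm_natCast]
      have h5 := norm_add_le (deriv (ζ b) 0 - approx φ γ (t i) b)
        (approx φ γ (t i) b + 1 / e * logAbs σ art u b)
      calc (e : ℝ) * _ ≤ e * (ε / (2 * e) / 2 + ε / (2 * e) / 2) := by
            gcongr
            linarith
        _ = ε / 2 := by field_simp; ring
        _ < ε := by linarith
    obtain ⟨u, hu2, hu3, hu⟩ := hmem
    refine ⟨u, fun b => ?_, hu2, hu3⟩
    have h1 : -(e : ℂ) * deriv (ζ b) 0 = (logAbs σ art u b : ℂ) := congrFun hu b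
    push_cast
    rw [← h1]
    field_simp
  tfae_finish

end Pool.Agent.Results.MP_29cb78_nt.UnitsNearFrobeniusSums
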